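import Mathlib
import Pool.Agent.V7H17.MoserRect

set_option autoImplicit false

/-!
# Rectangles of total area one and sides at most one pack into every square of area two

This answers Moser's question (1966) in the affirmative, for finite and for infinite families.

The proof first establishes Steinberg's theorem on packing rectangles into a rectangle
(`Pool.Agent.V7H17.Steinberg`).  It settles at once all the families in which no rectangle has both
sides longer than half of the side of the square.  If there is such a rectangle (there is at most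
one), the others fit into the strip above it, or else it is placed in a corner together with the
rectangle of the second largest short side on top of it, and the others go into the column beside
them.  Infinite families are reduced to finite ones by compactness.
-/

namespace Pool.Agent.Results.MP_93723f_co.MoserSquareH17

open Set

/-- The Euclidean plane. -/
abbrev Plane : Type := EuclideanSpace ℝ (Fin 2)

/-- The rigid motion `p ↦ (rotation of p by the angle θ about the origin) + t`. -/
noncomputable def motion (θ : ℝ) (t p : Plane) : Plane :=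
  !₂[Real.cos θ * p 0 - Real.sin θ * p 1 + t 0, Real.sin θ * p 0 + Real.cos θ * p 1 + t 1]

/-- `R` is a closed rectangle of the plane, in any position, with side lengths `a, b > 0`. -/
def IsRectangle (R : Set Plane) (a b : ℝ) : Prop :=
  0 < a ∧ 0 < b ∧ ∃ (θ : ℝ) (t : Plane),
    R = motion θ t '' {p | 0 ≤ p 0 ∧ p 0 ≤ a ∧ 0 ≤ p 1 ∧ p 1 ≤ b}

/-- The family `R` packs into `K`: the members can be moved by rigid motions to subsets of `K`
with pairwise disjoint interiors. -/
def PacksInto {ι : Type*} (R : ι → Set Plane) (K : Set Plane) : Prop :=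
  ∃ (θ : ι → ℝ) (t : ι → Plane), (∀ i, motion (θ i) (t i) '' R i ⊆ K) ∧
    ∀ i j, i ≠ j →
      Disjoint (interior (motion (θ i) (t i) '' R i)) (interior (motion (θ j) (t j) '' R j))

@[simp] theorem motion_zero (θ : ℝ) (t p : Plane) :
    motion θ t p 0 = Real.cos θ * p 0 - Real.sin θ * p 1 + t 0 := by simp [motion]

@[simp] theorem motion_one (θ : ℝ) (t p : Plane) :
    motion θ t p 1 = Real.sin θ * p 0 + Real.cos θ * p 1 + t 1 := by simp [motion]

theorem plane_ext {p q : Plane} (h0 : p 0 = q 0) (h1 : p 1 = q 1) : p = q := by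
  ext i
  fin_cases i
  · exact h0
  · exact h1

theorem motion_comp (θ φ : ℝ) (t s p : Plane) :
    motion θ t (motion φ s p) = motion (θ + φ) (motion θ t s) p := by
  apply plane_ext
  · simp only [motion_zero, motion_one, Real.cos_add, Real.sin_add]; ring
  · simp only [motion_zero, motion_one, Real.cos_add, Real.sin_add]; ring

theorem motion_id (p : Plane) : motion 0 0 p = p := by
  apply plane_ext <;> simp

/-- a motion as a homeomorphism -/
noncomputable def motionHomeo (θ : ℝ) (t : Plane) : Plane ≃ₜ Plane where
  toFun := motion θ t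
  invFun := motion (-θ) (-(motion (-θ) 0 t))
  left_inv p := by
    rw [motion_comp]
    apply plane_ext
    · simp
    · simp
  right_inv p := by
    rw [motion_comp]
    have h := Real.sin_sq_add_cos_sq θ
    apply plane_ext
    · simp only [motion_zero, motion_one, add_neg_cancel, Real.cos_zero, Real.sin_zero,
        PiLp.neg_apply, Real.cos_neg, Real.sin_neg, PiLp.zero_apply]
      linear_combination (-t 0) * h
    · simp only [motion_zero, motion_one, add_neg_cancel, Real.cos_zero, Real.sin_zero,
        PiLp.neg_apply, Real.cos_neg, Real.sin_neg, PiLp.zero_apply]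
      linear_combination (-t 1) * h
  continuous_toFun := by
    unfold motion
    refine (PiLp.continuous_toLp 2 _).comp (continuous_pi fun i => ?_)
    fin_cases i
    · simp; fun_prop
    · simp; fun_prop
  continuous_invFun := by
    unfold motion
    refine (PiLp.continuous_toLp 2 _).comp (continuous_pi fun i => ?_)
    fin_cases i
    · simp; fun_prop
    · simp; fun_prop

theorem motionHomeo_coe (θ : ℝ) (t : Plane) : ⇑(motionHomeo θ t) = motion θ t := rfl

theorem interior_gt {S : Set Plane} {k : Fin 2} {c : ℝ} (hS : ∀ p ∈ S, c ≤ p k) {p : Plane}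
    (hp : p ∈ interior S) : c < p k := by
  have hopen : IsOpenMap (fun q : Plane => q k) :=
    (EuclideanSpace.proj k : Plane →L[ℝ] ℝ).isOpenMap (fun r => ⟨EuclideanSpace.single k r, by simp⟩)
  have h1 : (fun q : Plane => q k) '' interior S ⊆ interior (Ici c) := by
    apply interior_maximal
    · rintro _ ⟨q, hq, rfl⟩
      exact hS q (interior_subset hq)
    · exact hopen _ isOpen_interior
  rw [interior_Ici] at h1
  exact h1 ⟨p, hp, rfl⟩

theorem interior_disj {S T : Set Plane} (k : Fin 2) (c : ℝ) (hS : ∀ p ∈ S, p k ≤ c)
    (hT : ∀ p ∈ T, c ≤ p k) : Disjoint (interior S) (interior T) := by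
  rw [Set.disjoint_left]
  intro p hp hp'
  exact absurd (interior_gt hT hp') (not_lt.2 (hS p (interior_subset hp)))

/-- **Theorem.** Every family of closed rectangles with all sides at most `1` and total area at most
`1` (in particular every finite or countably infinite family of total area `1` and maximal side `1`)
packs into every square of side `√2`. -/
theorem result {ι : Type*} (R : ι → Set Plane) (a b : ι → ℝ)
    (hR : ∀ i, IsRectangle (R i) (a i) (b i)) (ha : ∀ i, a i ≤ 1) (hb : ∀ i, b i ≤ 1)
    (hs : Summable fun i => a i * b i) (hsum : ∑' i, a i * b i ≤ 1)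
    (Q : Set Plane) (hQ : IsRectangle Q (√2) (√2)) : PacksInto R Q := by
  have hnn : ∀ i, 0 ≤ a i * b i := fun i => (mul_pos (hR i).1 (hR i).2.1).le
  obtain ⟨f, hf0, hf⟩ := Pool.Agent.V7H17.MoserRect.exists_placement a b
    (fun i => ⟨(hR i).1, ha i⟩) (fun i => ⟨(hR i).2.1, hb i⟩)
    (fun s => (hs.sum_le_tsum s (fun i _ => hnn i)).trans hsum)
  choose φ s hφ using fun i => (hR i).2.2
  obtain ⟨ψ, r, hψ⟩ := hQ.2.2
  -- positions of the rectangles in the standard square
  set α : ι → ℝ := fun i => if (f i).1 then 0 else Real.pi / 2 with hα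
  set x : ι → Plane := fun i => if (f i).1 then !₂[(f i).2.1, (f i).2.2]
    else !₂[(f i).2.1 + b i, (f i).2.2] with hx
  set A : ι → Set Plane := fun i =>
    motion (α i) (x i) '' {p | 0 ≤ p 0 ∧ p 0 ≤ a i ∧ 0 ≤ p 1 ∧ p 1 ≤ b i} with hA
  have hbox : ∀ i, ∀ p ∈ A i, ((f i).2.1 ≤ p 0 ∧
      p 0 ≤ (f i).2.1 + Pool.Agent.V7H17.MoserRect.wd a b i (f i).1) ∧
      ((f i).2.2 ≤ p 1 ∧ p 1 ≤ (f i).2.2 + Pool.Agent.V7H17.MoserRect.wd b a i (f i).1) := by
    rintro i _ ⟨q, ⟨h1, h2, h3, h4⟩, rfl⟩
    unfold Pool.Agent.V7H17.MoserRect.wd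
    by_cases ho : (f i).1 = true
    · simp only [hα, hx, ho, if_true, motion_zero, motion_one, Real.cos_zero, Real.sin_zero]
      simp
      exact ⟨⟨h1, by linarith⟩, ⟨h3, by linarith⟩⟩
    · simp only [hα, hx, ho, motion_zero, motion_one]
      simp
      exact ⟨⟨by linarith, by linarith⟩, ⟨h1, by linarith⟩⟩
  have hAsq : ∀ i, A i ⊆ {p | 0 ≤ p 0 ∧ p 0 ≤ √2 ∧ 0 ≤ p 1 ∧ p 1 ≤ √2} := by
    intro i p hp
    obtain ⟨⟨g1, g2⟩, g3, g4⟩ := hbox i p hp
    have h0 := hf0 i
    have h1 := (hf i i).1
    exact ⟨by linarith [h0.1], by linarith [h1.1], by linarith [h0.2], by linarith [h1.2]⟩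
  have hAdisj : ∀ i j, i ≠ j → Disjoint (interior (A i)) (interior (A j)) := by
    intro i j hij
    rcases (hf i j).2 hij with h | h | h | h
    · exact interior_disj 0 ((f j).2.1) (fun p hp => (hbox i p hp).1.2.trans h)
        (fun p hp => (hbox j p hp).1.1)
    · exact (interior_disj 0 ((f i).2.1) (fun p hp => (hbox j p hp).1.2.trans h)
        (fun p hp => (hbox i p hp).1.1)).symm
    · exact interior_disj 1 ((f j).2.2) (fun p hp => (hbox i p hp).2.2.trans h)
        (fun p hp => (hbox j p hp).2.1)
    · exact (interior_disj 1 ((f i).2.2) (fun p hp => (hbox j p hp).2.2.trans h)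
        (fun p hp => (hbox i p hp).2.1)).symm
  -- the motions
  set θ : ι → ℝ := fun i => ψ + α i - φ i with hθ
  set t : ι → Plane := fun i => motion ψ r (x i) - motion (θ i) 0 (s i) with ht
  have himg : ∀ i, motion (θ i) (t i) '' R i = motion ψ r '' A i := by
    intro i
    rw [hφ i, hA]
    dsimp only
    rw [Set.image_image, Set.image_image]
    refine Set.image_congr fun p _ => ?_
    rw [motion_comp, motion_comp]
    have e1 : θ i + φ i = ψ + α i := by rw [hθ]; ring
    have e2 : motion (θ i) (t i) (s i) = motion ψ r (x i) := by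
      apply plane_ext
      · rw [motion_zero, ht]
        simp only [PiLp.sub_apply, motion_zero, PiLp.zero_apply]
        ring
      · rw [motion_one, ht]
        simp only [PiLp.sub_apply, motion_one, PiLp.zero_apply]
        ring
    rw [e1, e2]
  refine ⟨θ, t, fun i => ?_, fun i j hij => ?_⟩
  · rw [himg, hψ]
    exact Set.image_mono (hAsq i)
  · rw [himg, himg, ← motionHomeo_coe, ← Homeomorph.image_interior, ← Homeomorph.image_interior,
      Set.disjoint_image_iff (motionHomeo ψ r).injective]
    exact hAdisj i j hij

end Pool.Agent.Results.MP_93723f_co.MoserSquareH17
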